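import Pool.Agent.H43.TC.Targets

/-!
# tc_modules SYM: the region is symmetric
-/

set_option autoImplicit false

open Filter Topology

namespace Pool.Agent.H71.TC

open Pool.Agent.H43.TC

theorem walks_not {G : Type} [AddCommGroup G] {k : ℕ} (s : Fin k → G) (c : G → Bool) (b : Bool)
    (t : ℕ) : ∀ x : G, walks s (fun y => !(c y)) b t x = walks s c (!b) t x := by
  have hb : ∀ y : G, ((!(c y)) = b) ↔ (c y = (!b)) := by
    intro y
    cases c y <;> cases b <;> simp
  induction t with
  | zero =>
    intro x
    simp only [walks, hb]
  | succ t ih =>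
    intro x
    simp only [walks, ih, hb]

theorem size_not {k n : ℕ} [NeZero n] (c : Tor k n → Bool) (b : Bool) :
    size (fun y => !(c y)) b = size c (!b) := by
  unfold size
  congr 1
  ext x
  simp only [Finset.mem_filter, Finset.mem_univ, true_and]
  cases c x <;> cases b <;> simp

theorem stay_not {k n : ℕ} [NeZero n] (c : Tor k n → Bool) (b : Bool) (t : ℕ) :
    stay (fun y => !(c y)) b t = stay c (!b) t := by
  unfold stay total
  rw [size_not, Finset.sum_congr rfl fun x _ => walks_not e c b t x]

theorem sym : T_SYM := by
  intro k t x y h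
  obtain ⟨n, c, hn, hb, hc⟩ := h
  refine ⟨n, fun j y => !(c j y), hn, fun j => ?_, ?_⟩
  · have h1 := hb j
    unfold Pool.Agent.H43.TC.Balanced at h1 ⊢
    rw [size_not, size_not]
    exact h1.symm
  · have h1 : (fun j => (stay (fun y => !(c j y)) true t, stay (fun y => !(c j y)) false t)) =
        fun j => Prod.swap (stay (c j) true t, stay (c j) false t) := by
      funext j
      rw [stay_not, stay_not]
      rfl
    rw [h1]
    exact (continuous_swap.tendsto (x, y)).comp hc

end Pool.Agent.H71.TC
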